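import Pool.Agent.H71.O2.K1

set_option autoImplicit false

/-!
# The end game of case O1 (helper12, MP_52f71e)

If `th(a, b)` fixes `b` for all `a, b`, then `x ↦ T_x` is a homomorphism; a simple loop is then
associative or commutative.
-/

namespace ALoop

open Equiv

variable {Q : Type*} {G : Subgroup (Perm Q)} {L : Q → Perm Q} {J : Perm Q} {e : Q}

/-- `a(x, y) = L_(xy)⁻¹ L_x L_y` -/
def alp (L : Q → Perm Q) (x y : Q) : Perm Q := (L (L x y))⁻¹ * L x * L y

namespace AL0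

theorem alp_mem (h : AL0 G L J e) (x y : Q) : alp L x y ∈ G :=
  G.mul_mem (G.mul_mem (G.inv_mem (h.memL _)) (h.memL _)) (h.memL _)

theorem alp_e (h : AL0 G L J e) (x y : Q) : alp L x y e = e := by
  unfold alp
  rw [Perm.mul_apply, Perm.mul_apply, h.Le, Perm.inv_eq_iff_eq, h.Le]

theorem flexi (h : AL0 G L J e) (y z : Q) : L y (L z y) = L (L y z) y := by
  have h1 := congrArg (fun f : Perm Q => f z) (h.flex y)
  simp only [Perm.mul_apply] at h1
  rw [h.Rt_app, h.Rt_app] at h1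
  exact h1

theorem alp_x (h : AL0 G L J e) (x y : Q) : alp L x y x = x := by
  unfold alp
  rw [Perm.mul_apply, Perm.mul_apply, Perm.inv_eq_iff_eq, h.flexi]

theorem hmul (h : AL0 G L J e) {g : Perm Q} (hg : g ∈ G) (he : g e = e) (x y : Q) :
    g (L x y) = L (g x) (g y) := by
  rw [← h.equi g hg he x]
  simp only [Perm.mul_apply, inv_apply']

theorem LL (_h : AL0 G L J e) (x y : Q) : L x * L y = L (L x y) * alp L x y := by
  unfold alp; group

theorem LR (_h : AL0 G L J e) (a b : Q) :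
    L a * Rt L J b = Rt L J b * L a * Th L J a b := by
  unfold Th; group

theorem conjTx (h : AL0 G L J e) {g : Perm Q} (hg : g ∈ G) (he : g e = e) (x : Q) :
    g * Tx L J x * g⁻¹ = Tx L J (g x) := by
  have h1 := h.equi g hg he x
  have h2 := h.equi g hg he (J x)
  have h3 := h.comJ g hg he
  have h4 : g (J x) = J (g x) := by
    have := congrArg (fun p : Perm Q => p x) h3
    simpa only [Perm.mul_apply] using this
  have h5 : g * Rt L J x * g⁻¹ = Rt L J (g x) := by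
    unfold Rt
    rw [← h4, ← h2]
    have h6 : J * g⁻¹ = g⁻¹ * J := by
      rw [eq_inv_mul_iff_mul_eq, ← mul_assoc, h3]; group
    calc g * (J * L (J x) * J) * g⁻¹ = (g * J) * L (J x) * (J * g⁻¹) := by group
      _ = (J * g) * L (J x) * (g⁻¹ * J) := by rw [h3, h6]
      _ = _ := by group
  unfold Tx
  rw [← h1, ← h5]
  group

theorem conjAlp (h : AL0 G L J e) {g : Perm Q} (hg : g ∈ G) (he : g e = e) (x y : Q) :
    g * alp L x y * g⁻¹ = alp L (g x) (g y) := by
  unfold alp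
  rw [← h.hmul hg he, ← h.equi g hg he (L x y), ← h.equi g hg he x, ← h.equi g hg he y]
  group

theorem conjTh (h : AL0 G L J e) {g : Perm Q} (hg : g ∈ G) (he : g e = e) (x y : Q) :
    g * Th L J x y * g⁻¹ = Th L J (g x) (g y) := by
  have h1 := h.equi g hg he x
  have h2 := h.equi g hg he (J y)
  have h3 := h.comJ g hg he
  have h4 : g (J y) = J (g y) := by
    have := congrArg (fun p : Perm Q => p y) h3
    simpa only [Perm.mul_apply] using this
  have h5 : g * Rt L J y * g⁻¹ = Rt L J (g y) := by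
    unfold Rt
    rw [← h4, ← h2]
    have h6 : J * g⁻¹ = g⁻¹ * J := by
      rw [eq_inv_mul_iff_mul_eq, ← mul_assoc, h3]; group
    calc g * (J * L (J y) * J) * g⁻¹ = (g * J) * L (J y) * (J * g⁻¹) := by group
      _ = (J * g) * L (J y) * (g⁻¹ * J) := by rw [h3, h6]
      _ = _ := by group
  unfold Th
  rw [← h1, ← h5]
  group

/-- an inner mapping which fixes `x` commutes with `T x` -/
theorem comT (h : AL0 G L J e) {g : Perm Q} (hg : g ∈ G) (he : g e = e) {x : Q} (hx : g x = x) :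
    g * Tx L J x = Tx L J x * g := by
  have h1 := h.conjTx hg he x
  rw [hx, mul_inv_eq_iff_eq_mul] at h1
  exact h1

section K7

variable (hK : ∀ a b, Th L J a b b = b)

include hK

theorem k7a (h : AL0 G L J e) (a b : Q) : Th L J a b a = a := by
  have h1 := hK (J b) (J a)
  rw [h.Th_inv, Perm.inv_eq_iff_eq] at h1
  have h2 := h.fixJ (h.Th_mem a b) (h.Th_e a b) h1.symm
  rwa [h.JJ] at h2

theorem k7alp (h : AL0 G L J e) (a b : Q) : alp L a b b = b := by
  have h1 := hK a b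
  unfold Th at h1
  simp only [Perm.mul_apply] at h1
  rw [Perm.inv_eq_iff_eq, Perm.inv_eq_iff_eq, h.Rt_app, h.Rt_app] at h1
  unfold alp
  rw [Perm.mul_apply, Perm.mul_apply, Perm.inv_eq_iff_eq]
  exact h1

/-- `th(a, b⁻¹) = th(a, b)⁻¹` -/
theorem k7K1 (h : AL0 G L J e) (a b : Q) : Th L J a (J b) = (Th L J a b)⁻¹ := by
  have h1 := h.K1 a b
  rw [h.comT (h.Th_mem a b) (h.Th_e a b) (hK a b)] at h1
  have h2 := mul_left_cancel h1
  rw [← h2, inv_inv]

/-- `th(b, a) = th(a, b)⁻¹` -/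
theorem k7A (h : AL0 G L J e) (a b : Q) : Th L J b a = (Th L J a b)⁻¹ := by
  have h1 := h.K2 a b
  rw [h.comT (h.Th_mem a b) (h.Th_e a b) (hK a b)] at h1
  have h2 := mul_left_cancel h1
  rw [h.k7K1 hK b a] at h2
  rw [← h2, inv_inv]

/-- `R_b R_{b⁻¹} = 1` -/
theorem k7IP (h : AL0 G L J e) (b : Q) : Rt L J b * Rt L J (J b) = 1 := by
  ext x
  have hw : Rt L J b * Rt L J (J b) * L x = L x * (Rt L J b * Rt L J (J b)) := by
    have hb := hK x b
    have hJb := h.fixJ (h.Th_mem x b) (h.Th_e x b) hb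
    have h1 := h.LR x b
    have h2 := h.LR x (J b)
    rw [h.k7K1 hK] at h2
    have c1 := h.comR (h.Th_mem x b) (h.Th_e x b) hJb
    have c2 := h.comR (h.Th_mem x b) (h.Th_e x b) hb
    have c3 := h.comL (h.Th_mem x b) (h.Th_e x b) (h.k7a hK x b)
    set t := Th L J x b with ht
    calc Rt L J b * Rt L J (J b) * L x =
          Rt L J b * (Rt L J (J b) * L x * t⁻¹) * t := by group
      _ = Rt L J b * (L x * Rt L J (J b)) * t := by rw [← h2]
      _ = Rt L J b * L x * (Rt L J (J b) * t) := by group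
      _ = (Rt L J b * L x * t) * Rt L J (J b) := by rw [← c1]; group
      _ = L x * Rt L J b * Rt L J (J b) := by rw [← h1]
      _ = _ := by group
  have h3 : (Rt L J b * Rt L J (J b)) e = e := by
    rw [Perm.mul_apply, h.Rt_e, h.Rt_app, h.JL]
  have h4 := congrArg (fun p : Perm Q => p e) hw
  simp only [Perm.mul_apply] at h4
  rw [Perm.mul_apply] at h3
  rw [h.Le, h3, h.Le] at h4
  rw [Perm.mul_apply, h4, Perm.one_apply]

theorem k7LI (h : AL0 G L J e) (b : Q) : L (J b) = (L b)⁻¹ := by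
  have h1 := h.k7IP hK (J b)
  rw [h.JJ] at h1
  have h2 : L b = J * Rt L J (J b) * J := by
    have := h.JRJ (J b)
    rw [h.JJ] at this
    exact this.symm
  have h3 : L (J b) = J * Rt L J b * J := (h.JRJ b).symm
  rw [eq_inv_iff_mul_eq_one]
  have h4 := h.k7IP hK b
  calc L (J b) * L b = J * Rt L J b * (J * J) * Rt L J (J b) * J := by
        rw [h2, h3]; group
    _ = J * (Rt L J b * Rt L J (J b)) * J := by rw [h.JJ1]; group
    _ = 1 := by rw [h4, mul_one, h.JJ1]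

theorem k7alpL (h : AL0 G L J e) (a b : Q) :
    alp L a b * L (L a b) = L (L a b) * alp L a b := by
  refine h.comL (h.alp_mem a b) (h.alp_e a b) ?_
  rw [h.hmul (h.alp_mem a b) (h.alp_e a b), h.alp_x, h.k7alp hK]

theorem k7inv (h : AL0 G L J e) (a b : Q) : alp L (J b) (J a) = (alp L a b)⁻¹ := by
  have h1 := h.k7alpL hK a b
  have h2 : alp L (J b) (J a) = L (L a b) * (L a * L b)⁻¹ := by
    unfold alp
    rw [← h.aaip, h.k7LI hK, h.k7LI hK, h.k7LI hK]
    group
  rw [h2, h.LL a b, mul_inv_rev, eq_inv_iff_mul_eq_one]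
  calc L (L a b) * ((alp L a b)⁻¹ * (L (L a b))⁻¹) * alp L a b =
        L (L a b) * (alp L a b)⁻¹ * ((L (L a b))⁻¹ * alp L a b) := by group
    _ = L (L a b) * (alp L a b)⁻¹ * ((L (L a b))⁻¹ * (alp L a b * L (L a b)) * (L (L a b))⁻¹) := by
        group
    _ = 1 := by rw [h1]; group

/-- `R_(yz) = R_z R_y a(y, z)` -/
theorem k7R (h : AL0 G L J e) (y z : Q) :
    Rt L J (L y z) = Rt L J z * Rt L J y * alp L y z := by
  have h1 := h.comJ _ (h.alp_mem y z) (h.alp_e y z)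
  have h2 := h.LL (J z) (J y)
  rw [h.k7inv hK] at h2
  have h3 : L (L (J z) (J y)) = L (J z) * L (J y) * alp L y z := by rw [h2]; group
  unfold Rt
  rw [h.aaip, h3]
  calc J * (L (J z) * L (J y) * alp L y z) * J = J * L (J z) * 1 * L (J y) * (alp L y z * J) := by
        group
    _ = J * L (J z) * (J * J) * L (J y) * (J * alp L y z) := by rw [h1, h.JJ1]
    _ = _ := by group

theorem k7a1 (h : AL0 G L J e) (x y z : Q) : L x (L y z) = alp L x y (L (L x y) z) := by
  have h1 := congrArg (fun p : Perm Q => p z) (h.LL x y)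
  have h2 := congrArg (fun p : Perm Q => p z) (h.k7alpL hK x y)
  simp only [Perm.mul_apply] at h1 h2
  rw [h1, h2]

theorem k7a2 (h : AL0 G L J e) (x y z : Q) : L x (L y z) = Th L J x z (L (L x y) z) := by
  have h1 := congrArg (fun p : Perm Q => p y) (h.LR x z)
  have h2 := h.comR (h.Th_mem x z) (h.Th_e x z) (hK x z)
  have h3 := h.comL (h.Th_mem x z) (h.Th_e x z) (h.k7a hK x z)
  have h4 : Rt L J z * L x * Th L J x z = Th L J x z * (Rt L J z * L x) := by
    calc Rt L J z * L x * Th L J x z = Rt L J z * (L x * Th L J x z) := by group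
      _ = (Rt L J z * Th L J x z) * L x := by rw [← h3]; group
      _ = _ := by rw [← h2]; group
  have h5 := congrArg (fun p : Perm Q => p y) h4
  simp only [Perm.mul_apply] at h1 h5
  rw [h5, h.Rt_app, h.Rt_app] at h1
  exact h1

theorem k7a3 (h : AL0 G L J e) (x y z : Q) : L x (L y z) = alp L y z (L (L x y) z) := by
  have h2 := h.comR (h.alp_mem y z) (h.alp_e y z) (h.k7alp hK y z)
  have h3 := h.comR (h.alp_mem y z) (h.alp_e y z) (h.alp_x y z)
  have h4 : Rt L J (L y z) = alp L y z * (Rt L J z * Rt L J y) := by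
    rw [h.k7R hK]
    calc Rt L J z * Rt L J y * alp L y z = Rt L J z * (Rt L J y * alp L y z) := by group
      _ = (Rt L J z * alp L y z) * Rt L J y := by rw [← h3]; group
      _ = _ := by rw [← h2]; group
  have h5 := congrArg (fun p : Perm Q => p x) h4
  simp only [Perm.mul_apply] at h5
  rw [h.Rt_app, h.Rt_app, h.Rt_app] at h5
  exact h5

theorem k7gam (h : AL0 G L J e) (x z : Q) : alp L z x * alp L x z = 1 := by
  ext w
  obtain ⟨y, hy⟩ : ∃ y, L (L x y) z = w := by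
    refine ⟨(L x)⁻¹ ((Rt L J z)⁻¹ w), ?_⟩
    rw [apply_inv', ← h.Rt_app z, apply_inv']
  -- `t_z = T_z⁻¹`
  have ht : ∀ z p, L z ((Tx L J z)⁻¹ p) = L p z := by
    intro z p
    have h1 := h.Tx_L z
    have h2 : L z * (Tx L J z)⁻¹ = Rt L J z := by
      have h3 := h.L_eq z
      calc L z * (Tx L J z)⁻¹ = (Tx L J z)⁻¹ * (Tx L J z * L z) * (Tx L J z)⁻¹ := by group
        _ = (Tx L J z)⁻¹ * L z := by rw [h1]; group
        _ = (Tx L J z)⁻¹ * (Tx L J z * Rt L J z) := by rw [← h3]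
        _ = _ := by group
    have h4 := congrArg (fun q : Perm Q => q p) h2
    simp only [Perm.mul_apply] at h4
    rw [h4, h.Rt_app]
  have hTi : ∀ z, (Tx L J z)⁻¹ ∈ G := fun z => G.inv_mem (h.Tx_mem z)
  have hTie : ∀ z, (Tx L J z)⁻¹ e = e := fun z => by rw [Perm.inv_eq_iff_eq, h.Tx_e]
  have hTix : ∀ z, (Tx L J z)⁻¹ z = z := fun z => by rw [Perm.inv_eq_iff_eq, h.Tx_x]
  have hTalp : ∀ z x, alp L z ((Tx L J z)⁻¹ x) = alp L z x := by
    intro z x
    have h1 := h.conjAlp (hTi z) (hTie z) z x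
    rw [hTix] at h1
    have h2 := h.comT (h.alp_mem z x) (h.alp_e z x) (h.alp_x z x)
    rw [← h1]
    calc (Tx L J z)⁻¹ * alp L z x * (Tx L J z)⁻¹⁻¹ =
          (Tx L J z)⁻¹ * (alp L z x * Tx L J z) := by group
      _ = _ := by rw [h2]; group
  -- the three decompositions of `w`
  have e1 : alp L y x w = Th L J y z w := by
    have h1 := h.k7a1 hK y ((Tx L J y)⁻¹ x) z
    have h2 := h.k7a2 hK y ((Tx L J y)⁻¹ x) z
    rw [ht, hy, hTalp] at h1
    rw [ht, hy] at h2
    rw [← h1, h2]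
  have e2 : alp L y x w = alp L x z w := by
    have h3 : L (Tx L J x y) x = L x y := by
      have := ht x (Tx L J x y)
      rw [inv_apply'] at this
      exact this.symm
    have h1 := h.k7a1 hK (Tx L J x y) x z
    have h2 := h.k7a3 hK (Tx L J x y) x z
    rw [h3, hy] at h1 h2
    have h4 := h.conjAlp (h.Tx_mem x) (h.Tx_e x) y x
    rw [h.Tx_x] at h4
    have h5 := h.comT (h.alp_mem y x) (h.alp_e y x) (h.k7alp hK y x)
    rw [← h4, ← h5] at h1
    rw [← h2, h1]
    simp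
  have e3 : (alp L z x)⁻¹ w = Th L J y z w := by
    have h3 : L z (L ((Tx L J z)⁻¹ x) ((Tx L J z)⁻¹ y)) = w := by
      rw [← h.hmul (hTi z) (hTie z), ht, hy]
    have h1 := h.k7a1 hK z ((Tx L J z)⁻¹ x) ((Tx L J z)⁻¹ y)
    have h2 := h.k7a2 hK z ((Tx L J z)⁻¹ x) ((Tx L J z)⁻¹ y)
    rw [h3, hTalp] at h1
    rw [h3] at h2
    have h4 := h.conjTh (hTi z) (hTie z) z y
    rw [hTix] at h4
    have h5 := h.comT (h.Th_mem z y) (h.Th_e z y) (h.k7a hK z y)
    have h6 : Th L J z ((Tx L J z)⁻¹ y) = Th L J z y := by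
      rw [← h4]
      calc (Tx L J z)⁻¹ * Th L J z y * (Tx L J z)⁻¹⁻¹ =
            (Tx L J z)⁻¹ * (Th L J z y * Tx L J z) := by group
        _ = _ := by rw [h5]; group
    rw [h6] at h2
    have h7 : (alp L z x)⁻¹ w = L (L z ((Tx L J z)⁻¹ x)) ((Tx L J z)⁻¹ y) := by
      rw [Perm.inv_eq_iff_eq]; exact h1
    have h8 : (Th L J z y)⁻¹ w = L (L z ((Tx L J z)⁻¹ x)) ((Tx L J z)⁻¹ y) := by
      rw [Perm.inv_eq_iff_eq]; exact h2
    rw [h7, ← h8, ← h.k7A hK z y]
  rw [Perm.mul_apply, ← e2, e1, ← e3, apply_inv', Perm.one_apply]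

/-- `R_q L_x = L_x R_q th(x, q)⁻¹` and its consequence -/
theorem k7RL (h : AL0 G L J e) (x q : Q) :
    L x * (Rt L J q)⁻¹ = (Rt L J q)⁻¹ * L x * (Th L J x q)⁻¹ := by
  have h1 := h.LR x q
  have h2 := h.comR (h.Th_mem x q) (h.Th_e x q) (hK x q)
  have h3 : Rt L J q * L x = L x * Rt L J q * (Th L J x q)⁻¹ := by rw [h1]; group
  have h4 : (Th L J x q)⁻¹ * (Rt L J q)⁻¹ = (Rt L J q)⁻¹ * (Th L J x q)⁻¹ := by
    rw [← mul_inv_rev, ← mul_inv_rev, h2]
  calc L x * (Rt L J q)⁻¹ = (Rt L J q)⁻¹ * (Rt L J q * L x) * (Rt L J q)⁻¹ := by group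
    _ = (Rt L J q)⁻¹ * L x * Rt L J q * ((Th L J x q)⁻¹ * (Rt L J q)⁻¹) := by rw [h3]; group
    _ = _ := by rw [h4]; group

/-- `th(x, q) = a(q, x)⁻¹ a(x, q)` -/
theorem k7thal (h : AL0 G L J e) (x q : Q) : Th L J x q = (alp L q x)⁻¹ * alp L x q := by
  -- `T_q (x q) = q x`
  have h0 : Tx L J q (L x q) = L q x := by
    have h1 := h.L_eq q
    have h2 := congrArg (fun p : Perm Q => p x) h1
    simp only [Perm.mul_apply] at h2
    rw [h.Rt_app] at h2
    exact h2.symm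
  have h1 := h.equi _ (h.Tx_mem q) (h.Tx_e q) (L x q)
  rw [h0] at h1
  -- `T L_(xq) T⁻¹ = L_(qx)`
  have h2 := h.LL x q
  have h3 := h.LL q x
  have c1 := h.Tx_L q
  have c2 := h.comT (h.alp_mem q x) (h.alp_e q x) (h.alp_x q x)
  have c3 := h.comT (h.alp_mem x q) (h.alp_e x q) (h.k7alp hK x q)
  have c4 := h.comT (h.Th_mem x q) (h.Th_e x q) (hK x q)
  have h4 := h.LR x q
  have c5 := h.comR (h.Th_mem x q) (h.Th_e x q) (hK x q)
  have c6 := h.Tx_R q
  have c7 := h.L_eq q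
  have c8 := h.comL (h.Th_mem x q) (h.Th_e x q) (hK x q)
  set T := Tx L J q with hT
  set R := Rt L J q with hR
  set t := Th L J x q with htt
  set α := alp L q x with hα
  set β := alp L x q with hβ
  -- `L x * L q = T⁻¹ * L (qx) * T * β`
  have h5 : L x * L q = T⁻¹ * (L q * L x * α⁻¹) * T * β := by
    have h6 : L (L q x) = L q * L x * α⁻¹ := by rw [h3]; group
    rw [← h6, ← h1, h2]; group
  -- `T⁻¹ L_x T = R L_q⁻¹ L_x L_q R⁻¹`
  have h7 : T⁻¹ * L x * T = (L q)⁻¹ * L x * L q * t⁻¹ := by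
    have h8 : R * L x * R⁻¹ = L x * t⁻¹ := by
      have h9 : R * L x = L x * R * t⁻¹ := by rw [h4]; group
      have h10 : t⁻¹ * R⁻¹ = R⁻¹ * t⁻¹ := by
        rw [← mul_inv_rev, ← mul_inv_rev, c5]
      calc R * L x * R⁻¹ = L x * R * (t⁻¹ * R⁻¹) := by rw [h9]; group
        _ = _ := by rw [h10]; group
    have h11 : T⁻¹ = (L q)⁻¹ * R := by
      have h12 : T = L q * R⁻¹ := rfl
      have h13 : T = R⁻¹ * L q := by
        have := h.flex q
        rw [← hR] at this
        rw [h12, mul_inv_eq_iff_eq_mul]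
        calc L q = R⁻¹ * (R * L q) := by group
          _ = _ := by rw [← this]; group
      rw [h13]; group
    have h14 : T = R⁻¹ * L q := by
      have := congrArg (fun p : Perm Q => p⁻¹) h11
      simpa using this
    have h15 : t⁻¹ * L q = L q * t⁻¹ := by
      rw [inv_mul_eq_iff_eq_mul, ← mul_assoc, c8]; group
    calc T⁻¹ * L x * T = (L q)⁻¹ * R * L x * (R⁻¹ * L q) := by rw [h11]; nth_rw 1 [h14]
      _ = (L q)⁻¹ * (R * L x * R⁻¹) * L q := by group
      _ = (L q)⁻¹ * L x * (t⁻¹ * L q) := by rw [h8]; group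
      _ = _ := by rw [h15]; group
  have h16 : T⁻¹ * L q = L q * T⁻¹ := by
    rw [inv_mul_eq_iff_eq_mul, ← mul_assoc, c1]; group
  have h17 : α⁻¹ * T = T * α⁻¹ := by
    rw [inv_mul_eq_iff_eq_mul, ← mul_assoc, c2]; group
  have h18 : L x * L q = L x * L q * t⁻¹ * α⁻¹ * β := by
    calc L x * L q = T⁻¹ * (L q * L x * α⁻¹) * T * β := h5
      _ = (T⁻¹ * L q) * L x * (α⁻¹ * T) * β := by group
      _ = L q * (T⁻¹ * L x * T) * α⁻¹ * β := by rw [h16, h17]; group
      _ = _ := by rw [h7]; group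
  have h19 : t⁻¹ * α⁻¹ * β = 1 := by
    have h20 : L x * L q * (t⁻¹ * α⁻¹ * β) = L x * L q * 1 := by
      calc L x * L q * (t⁻¹ * α⁻¹ * β) = L x * L q * t⁻¹ * α⁻¹ * β := by group
        _ = L x * L q := h18.symm
        _ = _ := (mul_one _).symm
    exact mul_left_cancel h20
  calc t = t * (t⁻¹ * α⁻¹ * β) := by rw [h19, mul_one]
    _ = _ := by group

/-- `x ↦ T_x` is a homomorphism -/
theorem k7T (h : AL0 G L J e) (q x : Q) : Tx L J (L q x) = Tx L J q * Tx L J x := by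
  have h1 := h.LL q x
  have h2 := h.k7R hK q x
  have h3 := h.k7RL hK x q
  have h4 := h.k7thal hK x q
  have h5 := h.k7gam hK x q
  have c1 := h.comL (h.alp_mem q x) (h.alp_e q x) (h.alp_x q x)
  have c2 := h.comL (h.alp_mem q x) (h.alp_e q x) (h.k7alp hK q x)
  have c3 := h.comR (h.alp_mem q x) (h.alp_e q x) (h.alp_x q x)
  have c4 := h.comR (h.alp_mem q x) (h.alp_e q x) (h.k7alp hK q x)
  set α := alp L q x with hα
  have h6 : alp L x q = α⁻¹ := (inv_eq_of_mul_eq_one_right h5).symm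
  have h7 : Th L J x q = α⁻¹ * α⁻¹ := by rw [h4, h6]
  rw [h7] at h3
  have h8 : L (L q x) = L q * L x * α⁻¹ := by rw [h1]; group
  have d1 : α⁻¹ * (Rt L J q)⁻¹ = (Rt L J q)⁻¹ * α⁻¹ := by
    rw [← mul_inv_rev, ← mul_inv_rev, c3]
  have d2 : α⁻¹ * (Rt L J x)⁻¹ = (Rt L J x)⁻¹ * α⁻¹ := by
    rw [← mul_inv_rev, ← mul_inv_rev, c4]
  unfold Tx
  rw [h8, h2]
  calc L q * L x * α⁻¹ * (Rt L J x * Rt L J q * α)⁻¹ =
        L q * L x * (α⁻¹ * α⁻¹ * (Rt L J q)⁻¹) * (Rt L J x)⁻¹ := by group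
    _ = L q * L x * (α⁻¹ * ((Rt L J q)⁻¹ * α⁻¹)) * (Rt L J x)⁻¹ := by
        rw [mul_assoc α⁻¹ α⁻¹, d1]
    _ = L q * L x * ((α⁻¹ * (Rt L J q)⁻¹) * α⁻¹) * (Rt L J x)⁻¹ := by group
    _ = L q * (L x * (Rt L J q)⁻¹) * α⁻¹ * α⁻¹ * (Rt L J x)⁻¹ := by rw [d1]; group
    _ = L q * (Rt L J q)⁻¹ * L x * α * α * (α⁻¹ * α⁻¹ * (Rt L J x)⁻¹) := by rw [h3]; group
    _ = _ := by group

end K7

end AL0

/-- END GAME of case O1 -/
theorem AL.end_game (h : AL G L J e) (hK : ∀ a b, Th L J a b b = b) :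
    Assoc L ∨ ∀ x y, L x y = L y x := by
  have h0 := h.al0
  have hT := h0.k7T hK
  have key := h.prim (fun a b => Tx L J a = Tx L J b) ⟨fun _ => rfl, fun h => h.symm,
    fun h1 h2 => h1.trans h2⟩ ?_
  · rcases key with h1 | h1
    · left
      intro x y z
      apply h1
      rw [hT, hT, hT, hT, mul_assoc]
    · right
      intro x y
      have h2 : Tx L J x = 1 := by
        rw [h1 x e]
        unfold Tx Rt
        rw [h.Je, h0.Le1, mul_one, h0.JJ1]; group
      have h3 := h0.L_eq x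
      rw [h2, one_mul] at h3
      rw [h3, h0.Rt_app]
  · intro g hg a b hab
    obtain ⟨h1, h2⟩ := h0.fix_part hg
    have h3 : ∀ c, Tx L J (g c) = Tx L J (g e) * (((L (g e))⁻¹ * g) * Tx L J c *
        ((L (g e))⁻¹ * g)⁻¹) := by
      intro c
      rw [h0.conjTx h1 h2, ← hT]
      rw [Perm.mul_apply, apply_inv']
    show Tx L J (g a) = Tx L J (g b)
    rw [h3 a, h3 b, hab]

end ALoop
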